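import Pool.Agent.H54.WM.Targets

/-!
# MP_e37c09_lc, board wm_modules, row TYX: countably many sets with all subsets as sections
-/

open Ordinal Cardinal Order Set
open scoped ZFSet

universe u

namespace Pool.Agent.H69.WM.TYX

open _root_.HD Pool.Agent.H54.WM

/-- pairs `(α, γ)` such that `γ` is an element of the value of `g` at the value of `f` at `α` -/
private noncomputable def XX (k f g : ZFSet.{u}) : ZFSet.{u} :=
  ZFSet.sep (fun p => ∃ a ∈ k, ∃ c ∈ k, p = ZFSet.pair a c ∧ c ∈ ap g (ap f a)) (ZFSet.prod k k)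

private theorem mem_XX {k f g p : ZFSet.{u}} :
    p ∈ XX k f g ↔ ∃ a ∈ k, ∃ c ∈ k, p = ZFSet.pair a c ∧ c ∈ ap g (ap f a) := by
  unfold XX
  rw [ZFSet.mem_sep]
  refine ⟨fun h => h.2, fun h => ⟨?_, h⟩⟩
  obtain ⟨a, ha, c, hc, rfl, -⟩ := h
  rw [ZFSet.mem_prod]
  exact ⟨a, ha, c, hc, rfl⟩

private theorem hod_XX {k f g : ZFSet.{u}} (hk : HOD k) (hf : HOD f) (hg : HOD g) :
    HOD (XX k f g) := by
  refine hod_iff.2 ⟨?_, fun z hz => ?_⟩
  · refine OD.of_mem (P := fun v => ∃ a ∈ k, ∃ c ∈ k, v 0 = ZFSet.pair a c ∧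
      c ∈ ap g (ap f a)) ?_ fun v => by rw [mem_XX]
    refine DZ.od (R := fun k v => ∃ a ∈ k, ∃ c ∈ k, v 0 = ZFSet.pair a c ∧
      c ∈ ap g (ap f a)) hk.od ?_
    refine DZ.od (R := fun f v => ∃ a ∈ v 0, ∃ c ∈ v 0, v 1 = ZFSet.pair a c ∧
      c ∈ ap g (ap f a)) hf.od ?_
    refine DZ.od (R := fun g v => ∃ a ∈ v 1, ∃ c ∈ v 1, v 2 = ZFSet.pair a c ∧
      c ∈ ap g (ap (v 0) a)) hg.od ?_
    refine DZ.exMem (R := fun a v => ∃ c ∈ v 2, v 3 = ZFSet.pair a c ∧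
      c ∈ ap (v 0) (ap (v 1) a)) 2 ?_
    refine DZ.exMem (R := fun c v => v 4 = ZFSet.pair (v 0) c ∧
      c ∈ ap (v 1) (ap (v 2) (v 0))) 3 ?_
    refine (D0.pair 5 1 0).dz.and ?_
    refine (DZ.ex (R := fun y v => y = ap (v 3) (v 1) ∧ v 0 ∈ ap (v 2) y) ?_).congr fun v => by
      simp
    refine (D0.ap 0 4 2).dz.and ?_
    refine (DZ.ex (R := fun t v => t = ap (v 3) (v 0) ∧ v 1 ∈ t) ?_).congr fun v => by simp
    exact (D0.ap 0 4 1).dz.and (DZ.mem 2 0)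
  · obtain ⟨a, ha, c, hc, rfl, -⟩ := mem_XX.1 hz
    exact (HOD_tra _ hk _ ha).pair (HOD_tra _ hk _ hc)

theorem TYX : T_TYX.{u} := by
  intro K hK hK0 hGI
  obtain ⟨lam, g, hcof, hg, hsub, hon⟩ := hGI
  have hlim : IsSuccLimit K.ord := Cardinal.isSuccLimit_ord hK0.le
  have hlam : IsSuccLimit lam := by
    rw [← Ordinal.one_lt_cof_iff, hcof]
    exact Cardinal.one_lt_aleph0
  obtain ⟨ι, h, hl, hι⟩ := Ordinal.exists_lsub_cof lam
  rw [hcof] at hι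
  obtain ⟨hd⟩ := Cardinal.denumerable_iff.2 hι
  have hlt : ∀ i, h i < lam := fun i => by
    rw [← hl]
    exact Ordinal.lt_lsub h i
  have h1 : ∀ n : ℕ, OntoHOD K.ord (succ (h ((Denumerable.eqv ι).symm n))) := fun n =>
    hon _ (hlam.succ_lt (hlt _)) (Order.bot_lt_succ _)
  choose F hF hFf hFo using h1
  have hkV : ∀ a ∈ K.ord.toZFSet, a ∈ HV K.ord := by
    intro a ha
    obtain ⟨b, hb, rfl⟩ := mem_toZFSet_iff.1 ha
    refine mem_HV.2 ⟨?_, HOD.ordinal b⟩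
    rw [ZFSet.mem_vonNeumann, rank_toZFSet]
    exact hb
  refine ⟨fun n => XX K.ord.toZFSet (F n) g, fun n => ⟨hod_XX (HOD.ordinal _) (hF n) hg, ?_⟩, ?_⟩
  · intro z hz
    obtain ⟨a, ha, c, hc, rfl, -⟩ := mem_XX.1 hz
    exact (mem_HV.1 (pair_mem_HV hlim (hkV a ha) (hkV c hc))).1
  · intro x hx hxK
    obtain ⟨a, ha, hax⟩ := hsub x hx hxK
    rw [← hl, Ordinal.lt_lsub_iff] at ha
    obtain ⟨i, hi⟩ := ha
    obtain ⟨n, rfl⟩ := (Denumerable.eqv ι).symm.surjective i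
    obtain ⟨b, hb, hba⟩ := hFo n a (Order.lt_succ_of_le hi)
    have hbK : b.toZFSet ∈ K.ord.toZFSet := mem_toZFSet_iff.2 ⟨b, hb, rfl⟩
    have hap : ap (F n) b.toZFSet = a.toZFSet := by
      ext z
      rw [mem_ap]
      constructor
      · rintro ⟨y, hy, hz⟩
        have h2 := ((hFf n).2 _ hbK).unique hy hba
        rwa [h2] at hz
      · intro hz
        exact ⟨_, hba, hz⟩
    refine ⟨n, b.toZFSet, hkV _ hbK, fun z => ?_⟩
    rw [mem_XX]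
    constructor
    · intro hz
      exact ⟨_, hbK, z, hxK hz, rfl, by rwa [hap, hax]⟩
    · rintro ⟨a', -, c, -, hp, hc⟩
      obtain ⟨rfl, rfl⟩ := ZFSet.pair_inj.1 hp
      rwa [hap, hax] at hc

end Pool.Agent.H69.WM.TYX
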